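import Mathlib
import Pool.Agent.Run7.h757.BP.Bil
import Pool.Agent.Run7.h462.BPD.Stm

set_option autoImplicit false

/-!
# Project BPD, piece BIL: bilinear sums with a condition on the product (adapted from helper757's `BP/Bil.lean`)
-/

namespace Run7.h373.BPD

open Finset
open Pool.Agent.H469R2.NK (e e_add norm_e norm_sum_neg kusmin_landau_mono)
open Run7.h757.BP.Bil (DD wt wt_pos DD_le wt_sum ind)
open Run7.h462.BPD

/-- numerical part -/
lemma num {x H K J q S l : ℝ} (hH : 1 ≤ H) (hK : 0 < K) (hJ : 0 < J) (hKJ : K ≤ J)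
    (h1 : K * J ≤ 2 * x) (hq : 1 ≤ q) (hx : x = q ^ 8) (hKq : q ^ 2 ≤ 4 * K)
    (hS0 : 0 < S) (hS1 : S ≤ 2 * q ^ 4) (hS2 : q ^ 2 ≤ 2 * S) (hl : 1 ≤ l) :
    (J * (H * S + J)) * (H * K ^ 2 / S + H * K * l) ≤ 40 * l * (H ^ 2 * q ^ 12 + H * q ^ 14) := by
  have hq0 : 0 < q := by linarith
  have hH0 : 0 < H := by linarith
  have hl0 : 0 < l := by linarith
  have hx0 : 0 < x := by rw [hx]; positivity
  have hJ1 : J ≤ 8 * q ^ 6 := by
    have c1 : q ^ 2 * J ≤ 8 * q ^ 8 := by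
      calc q ^ 2 * J ≤ 4 * K * J := by gcongr
        _ = 4 * (K * J) := by ring
        _ ≤ 4 * (2 * x) := by gcongr
        _ = 8 * q ^ 8 := by rw [hx]; ring
    have c2 : q ^ 2 * J ≤ q ^ 2 * (8 * q ^ 6) := by
      refine c1.trans (le_of_eq (by ring))
    exact le_of_mul_le_mul_left c2 (by positivity)
  have hK1 : K ≤ 2 * q ^ 4 := by
    have c1 : K * K ≤ (2 * q ^ 4) * (2 * q ^ 4) := by
      calc K * K ≤ K * J := by gcongr
        _ ≤ 2 * x := h1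
        _ ≤ 4 * x := by linarith
        _ = _ := by rw [hx]; ring
    by_contra hcon
    push Not at hcon
    have : (2 * q ^ 4) * (2 * q ^ 4) < K * K := by
      apply mul_self_lt_mul_self (by positivity) hcon
    linarith
  have e0 : (J * (H * S + J)) * (H * K ^ 2 / S + H * K * l) =
      (K * J) * H * (H * K + H * S * l + (K * J) / S + J * l) := by
    field_simp
    ring
  have f1 : H * K ≤ 2 * (H * q ^ 4) * l := by
    calc H * K ≤ H * (2 * q ^ 4) := by gcongr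
      _ = 2 * (H * q ^ 4) * 1 := by ring
      _ ≤ 2 * (H * q ^ 4) * l := by gcongr
  have f2 : H * S * l ≤ 2 * (H * q ^ 4) * l := by
    calc H * S * l ≤ H * (2 * q ^ 4) * l := by gcongr
      _ = _ := by ring
  have f3 : (K * J) / S ≤ 4 * q ^ 6 * l := by
    rw [div_le_iff₀ hS0]
    calc K * J ≤ 2 * x := h1
      _ = 2 * q ^ 6 * q ^ 2 := by rw [hx]; ring
      _ ≤ 2 * q ^ 6 * (2 * S) := by gcongr
      _ = 4 * q ^ 6 * 1 * S := by ring
      _ ≤ 4 * q ^ 6 * l * S := by gcongr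
  have f4 : J * l ≤ 8 * q ^ 6 * l := by gcongr
  rw [e0]
  calc (K * J) * H * (H * K + H * S * l + (K * J) / S + J * l) ≤
      (2 * x) * H * (2 * (H * q ^ 4) * l + 2 * (H * q ^ 4) * l + 4 * q ^ 6 * l + 8 * q ^ 6 * l) := by
        gcongr
    _ = l * (8 * (H ^ 2 * q ^ 12) + 24 * (H * q ^ 14)) := by rw [hx]; ring
    _ ≤ l * (40 * (H ^ 2 * q ^ 12) + 40 * (H * q ^ 14)) := by
        have : 0 ≤ H ^ 2 * q ^ 12 := by positivity
        have : 0 ≤ H * q ^ 14 := by positivity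
        apply mul_le_mul_of_nonneg_left _ hl0.le
        linarith
    _ = _ := by ring

/-- the case `K ≤ J` -/
lemma core (s : ℝ) (d : ℕ) (hd : 2 ≤ d) (hd4 : d ≤ 4) {CT : ℝ} (hCT : 1 ≤ CT)
    (hT : ∀ (H K J : ℕ), 1 ≤ H → 1 ≤ K → 1 ≤ J → ∀ (α : ℕ → ℕ → ℂ) (β : ℕ → ℂ),
    (∀ h k, ‖α h k‖ ≤ 1) → (∀ j, ‖β j‖ ≤ 1) →
    ‖∑ h ∈ Ico H (2 * H), ∑ k ∈ Ioc K (2 * K), ∑ j ∈ Ioc J (2 * J), α h k * β j *
      e (s * h * ((j : ℝ) * k) ^ (1 / (d : ℝ)))‖ ^ 2 ≤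
      CT * (J * (H * ((K : ℝ) * J) ^ (1 / (d : ℝ)) + J)) *
        (H * K ^ 2 / ((K : ℝ) * J) ^ (1 / (d : ℝ)) + H * K * ((1 + Real.log H) * (1 + Real.log K))))
    (X X' U H K J : ℕ) (c a b : ℕ → ℂ) (hH : 1 ≤ H) (hHX : H ^ 2 ≤ X) (hX : 1 ≤ X) (_hXX : X ≤ X')
    (hX2 : X' ≤ 2 * X) (hU : X ≤ 16 * U ^ 4) (hK : 1 ≤ K) (hJ : 1 ≤ J) (hKJ : K ≤ J) (hUK : U < 2 * K) (hKJX : K * J ≤ X')
    (hc : ∀ h, ‖c h‖ ≤ 1) (ha : ∀ m, ‖a m‖ ≤ 1) (hb : ∀ l, ‖b l‖ ≤ 1) :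
    ‖∑ k ∈ Ioc K (2 * K), ∑ j ∈ Ioc J (2 * J), a k * b j * (if X < k * j ∧ k * j ≤ X' then EE s d H c (k * j) else 0)‖ ≤
      (1000 * CT) * (1 + Real.log X) ^ 2 * (H * (X : ℝ) ^ (3 / 4 : ℝ) + √(H : ℝ) * (X : ℝ) ^ (7 / 8 : ℝ)) := by
  classical
  have hXR : (1 : ℝ) ≤ X := by exact_mod_cast hX
  have hX0 : (0 : ℝ) < X := by linarith
  have hHR : (1 : ℝ) ≤ H := by exact_mod_cast hH
  have hKR : (1 : ℝ) ≤ K := by exact_mod_cast hK
  have hJR : (1 : ℝ) ≤ J := by exact_mod_cast hJ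
  have hlog : 0 ≤ Real.log X := Real.log_nonneg hXR
  have hR0 : 0 ≤ (1000 * CT) * (1 + Real.log X) ^ 2 * (H * (X : ℝ) ^ (3 / 4 : ℝ) + √(H : ℝ) * (X : ℝ) ^ (7 / 8 : ℝ)) := by
    positivity
  by_cases hne : X < 4 * (K * J)
  swap
  · have : ∑ k ∈ Ioc K (2 * K), ∑ j ∈ Ioc J (2 * J), a k * b j * (if X < k * j ∧ k * j ≤ X' then EE s d H c (k * j) else 0) = 0 := by
      refine sum_eq_zero fun k hk => sum_eq_zero fun j hj => ?_
      rw [mem_Ioc] at hk hj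
      have h1 : k * j ≤ (2 * K) * (2 * J) := Nat.mul_le_mul hk.2 hj.2
      have h2 : (2 * K) * (2 * J) = 4 * (K * J) := by ring
      rw [if_neg (by omega), mul_zero]
    rw [this, norm_zero]
    exact hR0
  -- the parameters
  obtain ⟨q, hq⟩ : ∃ q : ℝ, q = (X : ℝ) ^ (1 / 8 : ℝ) := ⟨_, rfl⟩
  have hq1 : 1 ≤ q := by rw [hq]; exact Real.one_le_rpow hXR (by norm_num)
  have hq8 : (X : ℝ) = q ^ 8 := by
    rw [hq, ← Real.rpow_natCast, ← Real.rpow_mul hX0.le]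
    norm_num
  have hq7 : (X : ℝ) ^ (7 / 8 : ℝ) = q ^ 7 := by
    rw [hq, ← Real.rpow_natCast, ← Real.rpow_mul hX0.le]
    norm_num
  have hq6 : (X : ℝ) ^ (3 / 4 : ℝ) = q ^ 6 := by
    rw [hq, ← Real.rpow_natCast, ← Real.rpow_mul hX0.le]
    norm_num
  have hKJR : (K : ℝ) * J ≤ 2 * X := by exact_mod_cast hKJX.trans hX2
  have hneR : (X : ℝ) < 4 * (K * J) := by exact_mod_cast hne
  have hKq : q ^ 2 ≤ 4 * (K : ℝ) := by
    have h1 : (X : ℝ) ≤ 16 * (2 * K) ^ 4 := by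
      have h2 : X ≤ 16 * (2 * K) ^ 4 := hU.trans (Nat.mul_le_mul_left _ (Nat.pow_le_pow_left hUK.le 4))
      exact_mod_cast h2
    rw [hq8] at h1
    by_contra hcon
    push Not at hcon
    have h3 : (4 * (K : ℝ)) ^ 4 < (q ^ 2) ^ 4 := pow_lt_pow_left₀ hcon (by positivity) (by norm_num)
    have h4 : (q ^ 2) ^ 4 = q ^ 8 := by ring
    rw [h4] at h3
    nlinarith
  -- the size of the phase
  obtain ⟨S, hSd⟩ : ∃ S : ℝ, S = ((K : ℝ) * J) ^ (1 / (d : ℝ)) := ⟨_, rfl⟩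
  have hKJ1 : (1 : ℝ) ≤ K * J := by nlinarith
  have hKJ0 : (0 : ℝ) < K * J := by linarith
  have hdR2 : (2 : ℝ) ≤ d := by exact_mod_cast hd
  have hdR4 : (d : ℝ) ≤ 4 := by exact_mod_cast hd4
  have hS0 : 0 < S := by rw [hSd]; exact Real.rpow_pos_of_pos hKJ0 _
  have hS1 : S ≤ 2 * q ^ 4 := by
    have h1 : S ≤ ((K : ℝ) * J) ^ (1 / 2 : ℝ) := by
      rw [hSd]
      apply Real.rpow_le_rpow_of_exponent_le hKJ1
      apply one_div_le_one_div_of_le (by norm_num) hdR2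
    refine h1.trans ?_
    rw [← Real.sqrt_eq_rpow, Real.sqrt_le_left (by positivity)]
    have : (2 * q ^ 4) ^ 2 = 4 * q ^ 8 := by ring
    rw [this, ← hq8]
    linarith
  have hS2 : q ^ 2 ≤ 2 * S := by
    have h1 : ((K : ℝ) * J) ^ (1 / 4 : ℝ) ≤ S := by
      rw [hSd]
      apply Real.rpow_le_rpow_of_exponent_le hKJ1
      exact one_div_le_one_div_of_le (by linarith) hdR4
    obtain ⟨u, hu⟩ : ∃ u : ℝ, u = ((K : ℝ) * J) ^ (1 / 4 : ℝ) := ⟨_, rfl⟩
    have hu0 : 0 < u := by rw [hu]; exact Real.rpow_pos_of_pos hKJ0 _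
    have hu4 : u ^ 4 = K * J := by
      rw [hu, ← Real.rpow_natCast, ← Real.rpow_mul hKJ0.le]
      norm_num
    have h2 : q ^ 2 ≤ 2 * u := by
      have h3 : (q ^ 2) ^ 4 ≤ (2 * u) ^ 4 := by
        calc (q ^ 2) ^ 4 = (X : ℝ) := by rw [hq8]; ring
          _ ≤ 16 * (K * J) := by linarith
          _ = (2 * u) ^ 4 := by rw [← hu4]; ring
      exact le_of_pow_le_pow_left₀ (by norm_num) (by positivity) h3
    rw [← hu] at h1
    linarith
  -- the logarithms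
  obtain ⟨l, hld⟩ : ∃ l : ℝ, l = (1 + Real.log H) * (1 + Real.log K) := ⟨_, rfl⟩
  have hlH : 0 ≤ Real.log (H : ℝ) := Real.log_nonneg hHR
  have hlK : 0 ≤ Real.log (K : ℝ) := Real.log_nonneg hKR
  have hl1 : 1 ≤ l := by rw [hld]; nlinarith
  have hl2 : l ≤ 2 * (1 + Real.log X) ^ 2 := by
    have h1 : Real.log (H : ℝ) ≤ Real.log X := by
      apply Real.log_le_log (by linarith)
      have h2 : H ≤ X := by
        calc H = H * 1 := (mul_one H).symm
          _ ≤ H * H := Nat.mul_le_mul_left _ hH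
          _ = H ^ 2 := by ring
          _ ≤ X := hHX
      exact_mod_cast h2
    have h3 : Real.log (K : ℝ) ≤ 1 + Real.log X := by
      have h4 : (K : ℝ) ≤ 2 * X := by nlinarith
      have h5 := Real.log_le_log (by linarith) h4
      rw [Real.log_mul (by norm_num) hX0.ne'] at h5
      have := Real.log_two_lt_d9
      linarith
    calc l ≤ (1 + Real.log X) * (1 + (1 + Real.log X)) := by rw [hld]; gcongr
      _ ≤ (1 + Real.log X) * (2 * (1 + Real.log X)) := by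
          apply mul_le_mul_of_nonneg_left _ (by linarith)
          linarith
      _ = _ := by ring
  have hnum := num (x := (X : ℝ)) (H := H) (K := K) (J := J) (q := q) (S := S) (l := l) hHR (by linarith) (by linarith)
    (by exact_mod_cast hKJ) hKJR hq1 hq8 hKq hS0 hS1 hS2 hl1
  obtain ⟨B, hB⟩ : ∃ B : ℝ, B = H * q ^ 6 + √(H : ℝ) * q ^ 7 := ⟨_, rfl⟩
  have hB0 : 0 ≤ B := by rw [hB]; positivity
  have hBsq : (H : ℝ) ^ 2 * q ^ 12 + (H : ℝ) * q ^ 14 ≤ B ^ 2 := by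
    have h1 : √(H : ℝ) * √(H : ℝ) = H := Real.mul_self_sqrt (by linarith)
    have h2 : B ^ 2 = (H : ℝ) ^ 2 * q ^ 12 + (√(H : ℝ) * √(H : ℝ)) * q ^ 14 + 2 * (√(H : ℝ) * q ^ 7) * (H * q ^ 6) := by
      rw [hB]; ring
    rw [h2, h1]
    have : 0 ≤ 2 * (√(H : ℝ) * q ^ 7) * (H * q ^ 6) := by positivity
    linarith
  -- the separation
  obtain ⟨G, hG⟩ : ∃ G : ℕ, G = 2 * J + 1 := ⟨_, rfl⟩
  have hG1 : 1 ≤ G := by omega
  have hGR : (0 : ℝ) < G := by exact_mod_cast hG1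
  obtain ⟨Z2, hZ2⟩ : ∃ Z2 : ℕ → ℕ, Z2 = fun k => min (X' / k) (2 * J) := ⟨_, rfl⟩
  obtain ⟨Z1, hZ1⟩ : ∃ Z1 : ℕ → ℕ, Z1 = fun k => min (X / k) (2 * J) := ⟨_, rfl⟩
  have hind : ∀ k ∈ Ioc K (2 * K), ∀ j ∈ Ioc J (2 * J), (if X < k * j ∧ k * j ≤ X' then (1 : ℂ) else 0) =
      (1 / (G : ℂ)) * ∑ r ∈ range G, e ((j : ℝ) * ((r : ℝ) / G)) * (DD G (Z2 k) r - DD G (Z1 k) r) := by
    intro k hk j hj
    rw [mem_Ioc] at hk hj
    have hk0 : 0 < k := by omega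
    have i2 := ind G J (Z2 k) j hG hj.2 (by rw [hZ2]; exact min_le_right _ _)
    have i1 := ind G J (Z1 k) j hG hj.2 (by rw [hZ1]; exact min_le_right _ _)
    have i3 : (if X < k * j ∧ k * j ≤ X' then (1 : ℂ) else 0) = (if j ≤ Z2 k then (1 : ℂ) else 0) - (if j ≤ Z1 k then (1 : ℂ) else 0) := by
      have c2 : j ≤ Z2 k ↔ k * j ≤ X' := by
        rw [hZ2]
        simp only [le_min_iff]
        rw [Nat.le_div_iff_mul_le hk0, mul_comm j k]
        exact ⟨fun h => h.1, fun h => ⟨h, hj.2⟩⟩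
      have c1 : j ≤ Z1 k ↔ k * j ≤ X := by
        rw [hZ1]
        simp only [le_min_iff]
        rw [Nat.le_div_iff_mul_le hk0, mul_comm j k]
        exact ⟨fun h => h.1, fun h => ⟨h, hj.2⟩⟩
      by_cases d1 : k * j ≤ X
      · rw [if_neg (by omega), if_pos (c2.2 (by omega)), if_pos (c1.2 d1)]
        ring
      · by_cases d2 : k * j ≤ X'
        · rw [if_pos ⟨by omega, d2⟩, if_pos (c2.2 d2), if_neg (fun h => d1 (c1.1 h))]
          ring
        · rw [if_neg (by omega), if_neg (fun h => d2 (c2.1 h)), if_neg (fun h => d1 (c1.1 h))]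
          ring
    rw [i3, i2, i1, ← mul_sub, ← sum_sub_distrib]
    congr 1
    refine sum_congr rfl fun r _ => ?_
    ring
  obtain ⟨T, hTd⟩ : ∃ T : ℕ → ℂ, T = fun r => ∑ h ∈ Ico H (2 * H), ∑ k ∈ Ioc K (2 * K), ∑ j ∈ Ioc J (2 * J),
    (c h * a k * (DD G (Z2 k) r - DD G (Z1 k) r)) * (b j * e ((j : ℝ) * ((r : ℝ) / G))) * e (s * h * ((j : ℝ) * k) ^ (1 / (d : ℝ))) := ⟨_, rfl⟩
  have hsum : ∑ k ∈ Ioc K (2 * K), ∑ j ∈ Ioc J (2 * J), a k * b j * (if X < k * j ∧ k * j ≤ X' then EE s d H c (k * j) else 0) =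
      (1 / (G : ℂ)) * ∑ r ∈ range G, T r := by
    have h1 : ∀ k ∈ Ioc K (2 * K), ∀ j ∈ Ioc J (2 * J), a k * b j * (if X < k * j ∧ k * j ≤ X' then EE s d H c (k * j) else 0) =
        (1 / (G : ℂ)) * ∑ r ∈ range G, ∑ h ∈ Ico H (2 * H),
          (c h * a k * (DD G (Z2 k) r - DD G (Z1 k) r)) * (b j * e ((j : ℝ) * ((r : ℝ) / G))) * e (s * h * ((j : ℝ) * k) ^ (1 / (d : ℝ))) := by
      intro k hk j hj
      have h2 : (if X < k * j ∧ k * j ≤ X' then EE s d H c (k * j) else 0) =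
          (if X < k * j ∧ k * j ≤ X' then (1 : ℂ) else 0) * EE s d H c (k * j) := by
        split_ifs <;> simp
      rw [h2, hind k hk j hj]
      unfold EE
      rw [mul_assoc (1 / (G : ℂ)), sum_mul]
      simp_rw [mul_sum]
      refine sum_congr rfl fun r _ => sum_congr rfl fun h _ => ?_
      have h3 : ((k * j : ℕ) : ℝ) = (j : ℝ) * k := by push_cast; ring
      rw [h3]
      ring
    rw [sum_congr rfl fun k hk => sum_congr rfl fun j hj => h1 k hk j hj]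
    simp_rw [← mul_sum]
    congr 1
    rw [hTd]
    dsimp only
    have h4 : ∀ k ∈ Ioc K (2 * K), ∑ j ∈ Ioc J (2 * J), ∑ r ∈ range G, ∑ h ∈ Ico H (2 * H),
          (c h * a k * (DD G (Z2 k) r - DD G (Z1 k) r)) * (b j * e ((j : ℝ) * ((r : ℝ) / G))) * e (s * h * ((j : ℝ) * k) ^ (1 / (d : ℝ))) =
        ∑ r ∈ range G, ∑ h ∈ Ico H (2 * H), ∑ j ∈ Ioc J (2 * J),
          (c h * a k * (DD G (Z2 k) r - DD G (Z1 k) r)) * (b j * e ((j : ℝ) * ((r : ℝ) / G))) * e (s * h * ((j : ℝ) * k) ^ (1 / (d : ℝ))) := by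
      intro k _
      rw [sum_comm]
      exact sum_congr rfl fun r _ => sum_comm
    rw [sum_congr rfl h4, sum_comm]
    exact sum_congr rfl fun r _ => sum_comm
  have hTr : ∀ r ∈ range G, ‖T r‖ ≤ 2 * wt G r * (10 * CT * (1 + Real.log X) * B) := by
    intro r hr
    rw [mem_range] at hr
    have hw := wt_pos (G := G) (r := r) hG1
    have hwc : ((2 * wt G r : ℝ) : ℂ) ≠ 0 := by exact_mod_cast (by positivity : (2 * wt G r : ℝ) ≠ 0)
    have hα : ∀ h k : ℕ, ‖c h * a k * (DD G (Z2 k) r - DD G (Z1 k) r) / ((2 * wt G r : ℝ) : ℂ)‖ ≤ 1 := by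
      intro h k
      rw [norm_div, Complex.norm_real, Real.norm_of_nonneg (by positivity), div_le_one (by positivity), norm_mul, norm_mul]
      have g2 : ‖DD G (Z2 k) r‖ ≤ wt G r := DD_le (by rw [hZ2, hG]; exact Nat.succ_le_succ (min_le_right _ _)) hr
      have g1 : ‖DD G (Z1 k) r‖ ≤ wt G r := DD_le (by rw [hZ1, hG]; exact Nat.succ_le_succ (min_le_right _ _)) hr
      have g3 : ‖DD G (Z2 k) r - DD G (Z1 k) r‖ ≤ 2 * wt G r := (norm_sub_le _ _).trans (by linarith)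
      have g4 : ‖c h‖ * ‖a k‖ ≤ 1 := mul_le_one₀ (hc h) (norm_nonneg _) (ha k)
      calc ‖c h‖ * ‖a k‖ * ‖DD G (Z2 k) r - DD G (Z1 k) r‖ ≤ 1 * (2 * wt G r) :=
            mul_le_mul g4 g3 (norm_nonneg _) zero_le_one
        _ = _ := one_mul _
    have hβ : ∀ j : ℕ, ‖b j * e ((j : ℝ) * ((r : ℝ) / G))‖ ≤ 1 := by
      intro j
      rw [norm_mul, norm_e, mul_one]
      exact hb j
    have h1 := hT H K J hH hK hJ (fun h k => c h * a k * (DD G (Z2 k) r - DD G (Z1 k) r) / ((2 * wt G r : ℝ) : ℂ))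
      (fun j => b j * e ((j : ℝ) * ((r : ℝ) / G))) hα hβ
    have h2 : T r = ((2 * wt G r : ℝ) : ℂ) * ∑ h ∈ Ico H (2 * H), ∑ k ∈ Ioc K (2 * K), ∑ j ∈ Ioc J (2 * J),
        (c h * a k * (DD G (Z2 k) r - DD G (Z1 k) r) / ((2 * wt G r : ℝ) : ℂ)) * (b j * e ((j : ℝ) * ((r : ℝ) / G))) *
          e (s * h * ((j : ℝ) * k) ^ (1 / (d : ℝ))) := by
      rw [hTd]
      simp_rw [mul_sum]
      refine sum_congr rfl fun h _ => sum_congr rfl fun k _ => sum_congr rfl fun j _ => ?_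
      field_simp
    rw [h2, norm_mul, Complex.norm_real, Real.norm_of_nonneg (by positivity)]
    apply mul_le_mul_of_nonneg_left _ (by positivity)
    apply le_of_sq_le_sq _ (by positivity)
    refine h1.trans ?_
    have h3 : CT * (J * (H * ((K : ℝ) * J) ^ (1 / (d : ℝ)) + J)) *
        (H * K ^ 2 / ((K : ℝ) * J) ^ (1 / (d : ℝ)) + H * K * ((1 + Real.log H) * (1 + Real.log K))) ≤
        CT * (80 * (1 + Real.log X) ^ 2 * B ^ 2) := by
      rw [mul_assoc CT, ← hSd, ← hld]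
      apply mul_le_mul_of_nonneg_left _ (by linarith)
      refine hnum.trans ?_
      calc 40 * l * ((H : ℝ) ^ 2 * q ^ 12 + (H : ℝ) * q ^ 14) ≤ 40 * (2 * (1 + Real.log X) ^ 2) * B ^ 2 := by gcongr
        _ = _ := by ring
    refine h3.trans ?_
    have h4 : (10 * CT * (1 + Real.log X) * B) ^ 2 = CT * CT * (100 * (1 + Real.log X) ^ 2 * B ^ 2) := by ring
    rw [h4]
    have h5 : 0 ≤ (1 + Real.log X) ^ 2 * B ^ 2 := by positivity
    have h6 : CT ≤ CT * CT := by nlinarith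
    calc CT * (80 * (1 + Real.log X) ^ 2 * B ^ 2) ≤ CT * (100 * (1 + Real.log X) ^ 2 * B ^ 2) := by
          apply mul_le_mul_of_nonneg_left _ (by linarith)
          nlinarith
      _ ≤ CT * CT * (100 * (1 + Real.log X) ^ 2 * B ^ 2) := by
          apply mul_le_mul_of_nonneg_right h6
          nlinarith
  rw [hsum, norm_mul]
  have hn1 : ‖(1 / (G : ℂ))‖ = 1 / G := by
    rw [norm_div, norm_one, Complex.norm_natCast]
  rw [hn1]
  have hws := wt_sum G hG1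
  have hGl : Real.log G ≤ 2 + Real.log X := by
    have h1 : (G : ℝ) ≤ 5 * X := by
      have h2 : J ≤ K * J := Nat.le_mul_of_pos_left _ (by omega)
      have h3 : G ≤ 5 * X := by omega
      exact_mod_cast h3
    have h2 := Real.log_le_log hGR h1
    rw [Real.log_mul (by norm_num) hX0.ne'] at h2
    have h3 : Real.log 5 ≤ 2 := by
      rw [Real.log_le_iff_le_exp (by norm_num)]
      have := Real.add_one_le_exp (1 : ℝ)
      have h4 : Real.exp 2 = Real.exp 1 * Real.exp 1 := by rw [← Real.exp_add]; norm_num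
      have h5 := Real.exp_one_gt_d9
      rw [h4]
      nlinarith
    linarith
  obtain ⟨R, hR⟩ : ∃ R : ℝ, R = 10 * CT * (1 + Real.log X) * B := ⟨_, rfl⟩
  have hR0' : 0 ≤ R := by rw [hR]; positivity
  rw [← hR] at hTr
  calc 1 / (G : ℝ) * ‖∑ r ∈ range G, T r‖ ≤ 1 / (G : ℝ) * ∑ r ∈ range G, 2 * wt G r * R := by
        apply mul_le_mul_of_nonneg_left _ (by positivity)
        exact (norm_sum_le _ _).trans (sum_le_sum hTr)
    _ = 1 / (G : ℝ) * ((∑ r ∈ range G, wt G r) * (2 * R)) := by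
        rw [sum_mul]
        congr 1
        refine sum_congr rfl fun r _ => ?_
        ring
    _ ≤ 1 / (G : ℝ) * ((G * (5 + 4 * Real.log G)) * (2 * R)) := by gcongr
    _ = (5 + 4 * Real.log G) * (2 * R) := by field_simp
    _ ≤ (5 + 4 * (2 + Real.log X)) * (2 * R) := by gcongr
    _ ≤ (13 * (1 + Real.log X)) * (2 * R) := by
        apply mul_le_mul_of_nonneg_right _ (by positivity)
        linarith
    _ = (260 * CT) * (1 + Real.log X) ^ 2 * B := by rw [hR]; ring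
    _ ≤ (1000 * CT) * (1 + Real.log X) ^ 2 * B := by
        apply mul_le_mul_of_nonneg_right _ hB0
        apply mul_le_mul_of_nonneg_right _ (by positivity)
        linarith
    _ = _ := by rw [hB, hq7, hq6]

theorem bil (s : ℝ) (d : ℕ) (hd : 2 ≤ d) (hd4 : d ≤ 4) (htii : S_TII s d) : S_BIL s d := by
  obtain ⟨CT, hCT, hT⟩ := htii
  refine ⟨1000 * CT, by linarith, ?_⟩
  intro X X' U H M L c a b hH hHX hX hXX hX2 hU hM hL hUM hUL hML hc ha hb
  rcases le_total M L with h | h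
  · exact core s d hd hd4 hCT hT X X' U H M L c a b hH hHX hX hXX hX2 hU hM hL h hUM hML hc ha hb
  · have h1 := core s d hd hd4 hCT hT X X' U H L M c b a hH hHX hX hXX hX2 hU hL hM h hUL (by rw [mul_comm]; exact hML) hc hb ha
    refine le_trans (le_of_eq ?_) h1
    congr 1
    rw [sum_comm]
    refine sum_congr rfl fun l _ => sum_congr rfl fun m _ => ?_
    rw [mul_comm m l]
    ring

end Run7.h373.BPD
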